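import Pool.Agent.V11159.TJ.Main

open Finset

namespace Pool.Agent.V11159.TJ

/-- the case of a complement and a factor that are not in a coset -/
lemma coprime_case {ω : ℕ} [NeZero ω] {n : ℕ} (hn2 : 2 ≤ n) (hnω : n ∣ ω) {P : Set ℤ}
    (hP : Per ω P) {A : Finset ℤ} (hA : Til A P) (hAn : A.card = n) {p q : ℕ}
    (hpω : ∀ r : ℕ, r.Prime → r ∣ ω → r = p ∨ r = q)
    (hPp : ¬ ∃ c, ∀ s ∈ P, (p : ℤ) ∣ s - c) (hPq : ¬ ∃ c, ∀ s ∈ P, (q : ℤ) ∣ s - c) :
    (∃ c, ∀ a ∈ A, (p : ℤ) ∣ a - c) ∨ (∃ c, ∀ a ∈ A, (q : ℤ) ∣ a - c) := by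
  by_contra hcon
  rw [not_or] at hcon
  obtain ⟨a1, ha1, a2, ha2, hd1, hd2⟩ := two_mod (S := (A : Set ℤ)) (p := p) (q := q)
    (by simpa using hcon.1) (by simpa using hcon.2)
  obtain ⟨b1, hb1, b2, hb2, he1, he2⟩ := two_mod hPp hPq
  have hcop : ∀ d : ℤ, ¬ (p : ℤ) ∣ d → ¬ (q : ℤ) ∣ d → IsUnit (d : ZMod ω) := by
    intro d h1 h2
    rw [ZMod.coe_int_isUnit_iff_isCoprime, Int.isCoprime_iff_gcd_eq_one]
    by_contra hg
    obtain ⟨r, hr, hrd⟩ := Nat.exists_prime_and_dvd hg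
    have e1 : (r : ℤ) ∣ (ω : ℤ) := (Int.natCast_dvd_natCast.2 hrd).trans (Int.gcd_dvd_left ..)
    have e2 : (r : ℤ) ∣ d := (Int.natCast_dvd_natCast.2 hrd).trans (Int.gcd_dvd_right ..)
    rcases hpω r hr (Int.natCast_dvd_natCast.1 e1) with h | h
    · exact h1 (h ▸ e2)
    · exact h2 (h ▸ e2)
  obtain ⟨u, hu⟩ := hcop _ hd1 hd2
  obtain ⟨v, hv⟩ := hcop _ he1 he2
  set k : ℕ := ((v * u⁻¹ : (ZMod ω)ˣ) : ZMod ω).val with hk
  have hkc : Nat.Coprime k ω := ZMod.val_coe_unit_coprime _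
  have hω2 : 2 ≤ ω := hn2.trans (Nat.le_of_dvd (NeZero.pos ω) hnω)
  have hk0 : 0 < k := by
    rcases Nat.eq_zero_or_pos k with h0 | h0
    · rw [h0] at hkc; simp at hkc; omega
    · exact h0
  have hkd : ((k * (a1 - a2) : ℤ) : ZMod ω) = ((b1 - b2 : ℤ) : ZMod ω) := by
    rw [Int.cast_mul, ← hu, ← hv, hk]
    push_cast
    rw [ZMod.natCast_zmod_val, mul_assoc, ← Units.val_mul, inv_mul_cancel, Units.val_one, mul_one]
  have hkdvd : (ω : ℤ) ∣ (b2 + k * (a1 - a2)) - b1 := by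
    rw [← ZMod.intCast_zmod_eq_zero_iff_dvd]
    push_cast at hkd ⊢
    rw [hkd]; ring
  have hT := til_mult hP k hk0 A hA (hAn ▸ Nat.Coprime.coprime_dvd_right hnω hkc)
  obtain ⟨a, -, huniq⟩ := hT (k * a1 + b2)
  have h1 := huniq (k * a1) ⟨mem_image_of_mem _ ha1, by
    have : (k : ℤ) * a1 + b2 - k * a1 = b2 := by ring
    rw [this]; exact hb2⟩
  have h2 := huniq (k * a2) ⟨mem_image_of_mem _ ha2, by
    have : (k : ℤ) * a1 + b2 - k * a2 = b2 + k * (a1 - a2) := by ring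
    rw [this, hP _ b1 hkdvd]; exact hb1⟩
  have hk' : (k : ℤ) ≠ 0 := by exact_mod_cast hk0.ne'
  have h3 : a1 = a2 := mul_left_cancel₀ hk' (h1.trans h2.symm)
  apply hd1
  rw [h3, sub_self]; exact dvd_zero _

lemma til_inj {ω : ℕ} {P : Set ℤ} (hP : Per ω P) {A : Finset ℤ} (hA : Til A P) {a b : ℤ}
    (ha : a ∈ A) (hb : b ∈ A) (h : (ω : ℤ) ∣ a - b) : a = b := by
  obtain ⟨x, ⟨-, hx⟩, -⟩ := hA 0
  set p0 := 0 - x with hp0
  obtain ⟨y, -, hy⟩ := hA (a + p0)
  rw [hy a ⟨ha, by simpa using hx⟩, hy b ⟨hb, by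
    have e : a + p0 - b - p0 = a - b := by ring
    rw [hP (a + p0 - b) p0 (by rw [e]; exact h)]; exact hx⟩]

/-- reduction by a prime that does not divide the density of `P` -/
lemma til_R2 {ω' r : ℕ} (hω' : 0 < ω') (hr : r.Prime) [NeZero (r * ω')] {P : Set ℤ}
    (hP : Per (r * ω') P) (hrm : ¬ r ∣ (Bm (r * ω') P).card) {A : Finset ℤ} (hA : Til A P)
    {j : ℤ} (hj0 : 0 ≤ j) (hj : j < r) :
    Til (Aj r A j) {y | ∃ b ∈ P, (ω' : ℤ) ∣ y - b} := by
  haveI : Fact r.Prime := ⟨hr⟩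
  have hr0 : (0 : ℤ) < r := by exact_mod_cast hr.pos
  set Bt : Finset ℤ := (Bm (r * ω') P).image fun z => (z.val : ℤ) with hBt
  set At : Finset (ZMod (r * ω')) := A.image fun a : ℤ => (a : ZMod (r * ω')) with hAt
  have hBtc : Bt.card = (Bm (r * ω') P).card := by
    refine card_image_of_injective _ fun a b h => ?_
    have : a.val = b.val := by exact_mod_cast h
    exact ZMod.val_injective _ this
  have hBtP : ∀ b ∈ Bt, b ∈ P := by
    intro b hb
    obtain ⟨z, hz, rfl⟩ := mem_image.1 hb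
    rw [← mem_Bm hP]
    simpa using hz
  have hBt2 : ∀ b ∈ P, (((b : ZMod (r * ω')).val : ℕ) : ℤ) ∈ Bt := by
    intro b hb
    exact mem_image.2 ⟨(b : ZMod (r * ω')), (mem_Bm hP b).2 hb, rfl⟩
  have hval : ∀ b ∈ Bt, (((b : ZMod (r * ω')).val : ℕ) : ℤ) = b := by
    intro b hb
    obtain ⟨z, hz, rfl⟩ := mem_image.1 hb
    simp
  have heq : ∀ x y : ℤ, (x : ZMod (r * ω')) = (y : ZMod (r * ω')) ↔
      ((r * ω' : ℕ) : ℤ) ∣ x - y := by
    intro x y
    rw [← ZMod.intCast_zmod_eq_zero_iff_dvd, Int.cast_sub, sub_eq_zero]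
  have hbase : ∀ z : ZMod (r * ω'), (Bt.filter fun b : ℤ => z - (b : ZMod (r * ω')) ∈ At).card = 1 := by
    intro z
    have hz : z = ((z.val : ℤ) : ZMod (r * ω')) := by simp
    obtain ⟨a, ⟨haA, haP⟩, hu⟩ := hA (z.val : ℤ)
    rw [card_eq_one, singleton_iff_unique_mem]
    refine ⟨((((z.val : ℤ) - a : ℤ) : ZMod (r * ω')).val : ℤ), ?_, ?_⟩
    · refine mem_filter.2 ⟨hBt2 _ haP, ?_⟩
      refine mem_image.2 ⟨a, haA, ?_⟩
      push_cast
      simp
    · intro b hb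
      rw [mem_filter] at hb
      obtain ⟨a', ha', he⟩ := mem_image.1 hb.2
      have h1 : ((r * ω' : ℕ) : ℤ) ∣ ((z.val : ℤ) - a') - b := by
        rw [← heq]
        push_cast
        rw [he, ZMod.natCast_zmod_val]; ring
      have h2 : (z.val : ℤ) - a' ∈ P := (hP _ _ h1).2 (hBtP b hb.1)
      have h3 : a' = a := hu a' ⟨ha', h2⟩
      rw [h3] at h1
      rw [← heq] at h1
      rw [h1, hval b hb.1]
  have htij := tij (r := r) Bt At (fun b : ℤ => (b : ZMod (r * ω'))) (by rw [hBtc]; exact hrm) hbase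
  intro y
  have h0 := htij ((j + r * y : ℤ) : ZMod (r * ω'))
  rw [card_eq_one, singleton_iff_unique_mem] at h0
  obtain ⟨b, hb, hub⟩ := h0
  rw [mem_filter] at hb
  obtain ⟨hbB, hbA⟩ := hb
  obtain ⟨a, haA, hae⟩ := mem_image.1 hbA
  have hd : ((r * ω' : ℕ) : ℤ) ∣ (j + r * y - r * b) - a := by
    rw [← heq, hae]; push_cast; rw [nsmul_eq_mul]
  obtain ⟨t, ht⟩ := hd
  push_cast at ht
  have ha : a = j + r * (y - b - ω' * t) := by linear_combination -ht
  have ha1 : a % r = j := by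
    rw [ha, Int.add_mul_emod_self_left, Int.emod_eq_of_lt hj0 hj]
  have ha2 : a / r = y - b - ω' * t := by
    rw [ha, Int.add_mul_ediv_left _ _ hr0.ne', Int.ediv_eq_zero_of_lt hj0 hj, zero_add]
  refine ⟨a / r, ⟨mem_image.2 ⟨a, mem_filter.2 ⟨haA, ha1⟩, rfl⟩, ?_⟩, ?_⟩
  · exact ⟨b, hBtP b hbB, ⟨t, by rw [ha2]; ring⟩⟩
  · rintro y' ⟨hy1, hy2⟩
    obtain ⟨a', ha', rfl⟩ := mem_image.1 hy1
    rw [mem_filter] at ha'
    obtain ⟨b', hb', ⟨u, hu⟩⟩ := hy2
    have h1 := Int.emod_add_mul_ediv a' r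
    rw [ha'.2] at h1
    have h2 : (((b' : ZMod (r * ω')).val : ℕ) : ℤ) = b := by
      apply hub
      refine mem_filter.2 ⟨hBt2 b' hb', ?_⟩
      refine mem_image.2 ⟨a', ha'.1, ?_⟩
      have h3 : ((r * ω' : ℕ) : ℤ) ∣ a' - (j + r * y - r * b') :=
        ⟨-u, by push_cast; linear_combination -h1 - (r : ℤ) * hu⟩
      rw [← heq] at h3
      rw [h3]; push_cast; rw [nsmul_eq_mul]; simp
    have h4 : (b' : ZMod (r * ω')) = (b : ZMod (r * ω')) := by
      rw [← h2]; simp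
    have h5 := (heq _ _).1 h4
    obtain ⟨w, hw⟩ := h5
    push_cast at hw
    have h6 : a' = a := by
      refine til_inj hP hA ha'.1 haA ⟨-u + t - r * w, ?_⟩
      push_cast
      rw [ha]
      linear_combination -h1 - (r : ℤ) * hu - (r : ℤ) * hw
    rw [h6]

/-- dichotomy modulo `n` -/
def Di (n : ℕ) (P : Set ℤ) : Prop :=
  (∀ A, Til A P → Set.InjOn (fun a : ℤ => a % n) A) ∨
    (∀ A, Til A P → 2 * (A.image fun a : ℤ => a % n).card ≤ n)

lemma split_case {ω' n r : ℕ} (hrp : r.Prime) (hω' : 0 < ω') {P P' : Set ℤ} (hP' : Per ω' P')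
    (hn : ∀ A, Til A P → A.card = n) (hn0 : 0 < n)
    (htil : ∀ A, Til A P → ∀ j : ℤ, 0 ≤ j → j < r → Til (Aj r A j) P')
    {A₀ : Finset ℤ} (hA₀ : Til A₀ P)
    (ih : ∀ c', n = r * c' → (∀ A, Til A P' → A.card = c') → Di c' P') : Di n P := by
  haveI : NeZero ω' := ⟨hω'.ne'⟩
  have hr0 : (0 : ℤ) < r := by exact_mod_cast hrp.pos
  set c' := (Aj r A₀ 0).card with hc'
  have hn' : ∀ A, Til A P' → A.card = c' := by
    intro A hA
    have h1 := til_card hP' hA
    have h2 := til_card hP' (htil A₀ hA₀ 0 le_rfl hr0)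
    have h3 : 0 < (Bm ω' P').card := Nat.pos_of_ne_zero fun h => by rw [h] at h1; omega
    exact Nat.eq_of_mul_eq_mul_right h3 (h1.trans h2.symm)
  have hjr : ∀ j ∈ Finset.range r, (0 : ℤ) ≤ (j : ℤ) ∧ (j : ℤ) < r := by
    intro j hj
    rw [mem_range] at hj
    exact ⟨by positivity, by exact_mod_cast hj⟩
  have hsum : ∑ j ∈ Finset.range r, (Aj r A₀ (j : ℤ)).card = ∑ j ∈ Finset.range r, c' :=
    sum_congr rfl fun (j : ℕ) hj => hn' _ (htil A₀ hA₀ (j : ℤ) (hjr j hj).1 (hjr j hj).2)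
  have hnc : n = r * c' := by
    rw [← hn A₀ hA₀, ← card_Aj hrp.pos A₀, hsum]
    simp
  have hc0 : 0 < c' := Nat.pos_of_ne_zero fun h => by rw [h] at hnc; omega
  have hc0' : (0 : ℤ) < c' := by exact_mod_cast hc0
  rcases ih c' hnc hn' with h | h
  · left
    intro A hA a ha b hb hab
    have hab' : a % ((r * c' : ℕ) : ℤ) = b % ((r * c' : ℕ) : ℤ) := by rw [← hnc]; exact hab
    push_cast at hab'
    rw [emod_split a hr0 hc0', emod_split b hr0 hc0'] at hab'
    have a1 := Int.emod_nonneg a hr0.ne'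
    have a2 := Int.emod_lt_of_pos a hr0
    have b1 := Int.emod_nonneg b hr0.ne'
    have b2 := Int.emod_lt_of_pos b hr0
    have e1 : a % r = b % r := by
      have := congrArg (fun x : ℤ => x % r) hab'
      simpa [Int.add_mul_emod_self_left, Int.emod_emod_of_dvd] using this
    have e2 : (a / r) % c' = (b / r) % c' := by
      rw [e1] at hab'
      exact mul_left_cancel₀ hr0.ne' (add_left_cancel hab')
    have e3 : a / r = b / r := by
      refine h (Aj r A (a % r)) (htil A hA _ a1 a2) ?_ ?_ e2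
      · exact mem_coe.2 (mem_image.2 ⟨a, mem_filter.2 ⟨ha, rfl⟩, rfl⟩)
      · exact mem_coe.2 (mem_image.2 ⟨b, mem_filter.2 ⟨hb, e1.symm⟩, rfl⟩)
    rw [← Int.emod_add_mul_ediv a r, ← Int.emod_add_mul_ediv b r, e1, e3]
  · right
    intro A hA
    have h1 : A.image (fun a : ℤ => a % n) ⊆ (Finset.range r).biUnion fun j =>
        ((Aj r A (j : ℤ)).image fun y : ℤ => y % c').image fun y => (j : ℤ) + r * y := by
      intro x hx
      obtain ⟨a, ha, rfl⟩ := mem_image.1 hx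
      have a1 := Int.emod_nonneg a hr0.ne'
      have a2 := Int.emod_lt_of_pos a hr0
      refine mem_biUnion.2 ⟨(a % r).toNat, ?_, ?_⟩
      · rw [mem_range]; omega
      · have e : (((a % r).toNat : ℕ) : ℤ) = a % r := Int.toNat_of_nonneg a1
        rw [e]
        refine mem_image.2 ⟨(a / r) % c', mem_image.2 ⟨a / r, mem_image.2
          ⟨a, mem_filter.2 ⟨ha, rfl⟩, rfl⟩, rfl⟩, ?_⟩
        show a % r + r * (a / r % c') = a % n
        rw [hnc]; push_cast
        exact (emod_split a hr0 hc0').symm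
    have h2 := (card_le_card h1).trans card_biUnion_le
    calc 2 * (A.image fun a : ℤ => a % n).card ≤ 2 * ∑ j ∈ Finset.range r,
          (((Aj r A (j : ℤ)).image fun y : ℤ => y % c').image fun y => (j : ℤ) + r * y).card :=
          Nat.mul_le_mul_left 2 h2
      _ = ∑ j ∈ Finset.range r, 2 *
          (((Aj r A (j : ℤ)).image fun y : ℤ => y % c').image fun y => (j : ℤ) + r * y).card :=
          mul_sum _ _ _
      _ ≤ ∑ j ∈ Finset.range r, c' := by
          refine sum_le_sum fun j hj => ?_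
          refine (Nat.mul_le_mul_left 2 card_image_le).trans ?_
          exact h _ (htil A hA j (hjr j hj).1 (hjr j hj).2)
      _ = n := by rw [hnc]; simp

/-- dichotomy for the complements of a periodic set -/
theorem dich (p q : ℕ) : ∀ ω : ℕ, 0 < ω → ∀ (n m : ℕ) (P : Set ℤ), Per ω P → n * m = ω →
    (∀ A, Til A P → A.card = n) → (∀ r : ℕ, r.Prime → r ∣ n → r ∣ m → r = p ∨ r = q) →
    Di n P := by
  intro ω
  induction ω using Nat.strong_induction_on with
  | _ ω ih =>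
  intro hω n m P hP hnm hn hpr
  by_cases hex : ∃ A, Til A P
  swap
  · left; intro A hA; exact absurd ⟨A, hA⟩ hex
  obtain ⟨A₀, hA₀⟩ := hex
  haveI : NeZero ω := ⟨hω.ne'⟩
  have hcard : n * (Bm ω P).card = ω := by rw [← hn A₀ hA₀]; exact til_card hP hA₀
  have hn0 : 0 < n := by
    rcases Nat.eq_zero_or_pos n with h0 | h0
    · rw [h0, zero_mul] at hcard; omega
    · exact h0
  have hmB : (Bm ω P).card = m := Nat.eq_of_mul_eq_mul_left hn0 (hcard.trans hnm.symm)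
  have hnω : n ∣ ω := ⟨_, hcard.symm⟩
  by_cases hn1 : n = 1
  · left
    intro A hA a ha b hb _
    have := hn A hA
    rw [hn1] at this
    exact card_le_one.1 this.le a ha b hb
  have hn2 : 2 ≤ n := by omega
  by_cases hr : ∃ r : ℕ, r.Prime ∧ r ∣ ω ∧ ¬ r ∣ n
  · obtain ⟨r, hrp, ⟨ω', rfl⟩, hrn⟩ := hr
    have hω' : 0 < ω' := Nat.pos_of_ne_zero fun h => by rw [h] at hω; simp at hω
    haveI : NeZero ω' := ⟨hω'.ne'⟩
    have hlt : ω' < r * ω' := by have := hrp.two_le; nlinarith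
    set P' : Set ℤ := {y | (r : ℤ) * y ∈ P} with hP'd
    have hP' : Per ω' P' := by
      rintro z w ⟨t, ht⟩
      exact hP _ _ ⟨t, by push_cast; linear_combination (r : ℤ) * ht⟩
    have htil : ∀ A, Til A P → Til A P' := by
      intro A hA z
      have := til_prime hP hA hrp (by rw [hn A hA]; exact hrn) (r * z)
      have e : ∀ a : ℤ, (r : ℤ) * z - r * a ∈ P ↔ z - a ∈ P' := by
        intro a
        show _ ↔ (r : ℤ) * (z - a) ∈ P
        rw [mul_sub]
      simpa only [e] using this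
    have hn' : ∀ A, Til A P' → A.card = n := by
      intro A hA
      have h1 := til_card hP' hA
      have h2 := til_card hP' (htil A₀ hA₀)
      have h3 : 0 < (Bm ω' P').card := Nat.pos_of_ne_zero fun h => by rw [h] at h1; omega
      rw [← hn A₀ hA₀]
      exact Nat.eq_of_mul_eq_mul_right h3 (h1.trans h2.symm)
    have hrm : r ∣ m := (hrp.dvd_mul.1 (hnm ▸ dvd_mul_right r ω')).resolve_left hrn
    obtain ⟨m', rfl⟩ := hrm
    have hnm' : n * m' = ω' := by
      have : r * (n * m') = r * ω' := by rw [← hnm]; ring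
      exact Nat.eq_of_mul_eq_mul_left hrp.pos this
    rcases ih ω' hlt hω' n m' P' hP' hnm' hn'
      (fun s hs h1 h2 => hpr s hs h1 (h2.mul_left r)) with h | h
    · left; exact fun A hA => h A (htil A hA)
    · right; exact fun A hA => h A (htil A hA)
  push Not at hr
  by_cases hr2 : ∃ r : ℕ, r.Prime ∧ r ∣ n ∧ ¬ r ∣ m
  · obtain ⟨r, hrp, hrn, hrm⟩ := hr2
    obtain ⟨ω', hω'e⟩ := hrn.trans hnω
    subst hω'e
    have hω' : 0 < ω' := Nat.pos_of_ne_zero fun h => by rw [h] at hω; simp at hω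
    have hlt : ω' < r * ω' := by have := hrp.two_le; nlinarith
    have hP' : Per ω' {y | ∃ b ∈ P, (ω' : ℤ) ∣ y - b} := by
      intro z w hzw
      constructor
      · rintro ⟨b, hb, hd⟩
        refine ⟨b, hb, ?_⟩
        have : w - b = (z - b) - (z - w) := by ring
        rw [this]; exact dvd_sub hd hzw
      · rintro ⟨b, hb, hd⟩
        refine ⟨b, hb, ?_⟩
        have : z - b = (w - b) + (z - w) := by ring
        rw [this]; exact dvd_add hd hzw
    refine split_case hrp hω' hP' hn hn0 (fun A hA j hj0 hj =>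
      til_R2 hω' hrp hP (by rw [hmB]; exact hrm) hA hj0 hj) hA₀ ?_
    intro c' hnc hn'
    refine ih ω' hlt hω' c' m _ hP' ?_ hn' (fun s hs h1 h2 => hpr s hs (hnc ▸ h1.mul_left r) h2)
    have : r * (c' * m) = r * ω' := by rw [← hnm, hnc]; ring
    exact Nat.eq_of_mul_eq_mul_left hrp.pos this
  push Not at hr2
  by_cases hc : ∃ (r : ℕ) (c : ℤ), r.Prime ∧ r ∣ n ∧ ∀ b ∈ P, (r : ℤ) ∣ b - c
  · obtain ⟨r, c, hrp, hrn, hcP⟩ := hc
    obtain ⟨ω', hω'e⟩ := hrn.trans hnω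
    subst hω'e
    have hω' : 0 < ω' := Nat.pos_of_ne_zero fun h => by rw [h] at hω; simp at hω
    have hlt : ω' < r * ω' := by have := hrp.two_le; nlinarith
    have hP' : Per ω' {y | c + (r : ℤ) * y ∈ P} := by
      rintro z w ⟨t, ht⟩
      exact hP _ _ ⟨t, by push_cast; linear_combination (r : ℤ) * ht⟩
    refine split_case hrp hω' hP' hn hn0 (fun A hA j hj0 hj =>
      til_Aj hrp.pos hA hcP hj0 hj) hA₀ ?_
    intro c' hnc hn'
    refine ih ω' hlt hω' c' m _ hP' ?_ hn' (fun s hs h1 h2 => hpr s hs (hnc ▸ h1.mul_left r) h2)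
    have : r * (c' * m) = r * ω' := by rw [← hnm, hnc]; ring
    exact Nat.eq_of_mul_eq_mul_left hrp.pos this
  · right
    push Not at hc
    have hpr' : ∀ s : ℕ, s.Prime → s ∣ n → s = p ∨ s = q :=
      fun s hs h1 => hpr s hs h1 (hr2 s hs h1)
    -- choose two primes dividing `n`
    obtain ⟨p', q', hp'p, hp'n, hq'p, hq'n, hall⟩ : ∃ p' q' : ℕ, p'.Prime ∧ p' ∣ n ∧ q'.Prime ∧
        q' ∣ n ∧ ∀ s : ℕ, s.Prime → s ∣ n → s = p' ∨ s = q' := by
      have h0 : n.minFac.Prime := Nat.minFac_prime hn1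
      have h0d := Nat.minFac_dvd n
      by_cases h : ∀ s : ℕ, s.Prime → s ∣ n → s = n.minFac
      · exact ⟨_, _, h0, h0d, h0, h0d, fun s hs hd => Or.inl (h s hs hd)⟩
      · push Not at h
        obtain ⟨s, hs, hd, hne⟩ := h
        refine ⟨n.minFac, s, h0, h0d, hs, hd, fun t ht htd => ?_⟩
        have t1 := hpr' _ h0 h0d
        have t2 := hpr' _ hs hd
        have t3 := hpr' _ ht htd
        rcases t1 with t1 | t1 <;> rcases t2 with t2 | t2 <;> rcases t3 with t3 | t3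
        · exact absurd (t2.trans t1.symm) hne
        · exact absurd (t2.trans t1.symm) hne
        · exact Or.inl (t3.trans t1.symm)
        · exact Or.inr (t3.trans t2.symm)
        · exact Or.inr (t3.trans t2.symm)
        · exact Or.inl (t3.trans t1.symm)
        · exact absurd (t2.trans t1.symm) hne
        · exact absurd (t2.trans t1.symm) hne
    intro A hA
    have hPp : ¬ ∃ c, ∀ s ∈ P, (p' : ℤ) ∣ s - c := by
      rintro ⟨c, hc'⟩
      obtain ⟨b, hb, hb'⟩ := hc p' c hp'p hp'n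
      exact hb' (hc' b hb)
    have hPq : ¬ ∃ c, ∀ s ∈ P, (q' : ℤ) ∣ s - c := by
      rintro ⟨c, hc'⟩
      obtain ⟨b, hb, hb'⟩ := hc q' c hq'p hq'n
      exact hb' (hc' b hb)
    rcases coprime_case hn2 hnω hP hA (hn A hA)
      (fun s hs hd => hall s hs (hr s hs hd)) hPp hPq with ⟨c, hc1⟩ | ⟨c, hc1⟩
    · exact coset_count hp'p hp'n hn0 hc1
    · exact coset_count hq'p hq'n hn0 hc1

end Pool.Agent.V11159.TJ
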