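import Pool.Agent.V11159.TJ.Tij

open Finset

namespace Pool.Agent.V11159.TJ

/-- `ℤ = A ⊕ P` -/
def Til (A : Finset ℤ) (P : Set ℤ) : Prop := ∀ z : ℤ, ∃! a, a ∈ A ∧ z - a ∈ P

/-- `P` has period `ω` -/
def Per (ω : ℕ) (P : Set ℤ) : Prop := ∀ z w : ℤ, (ω : ℤ) ∣ z - w → (z ∈ P ↔ w ∈ P)

/-- the residues of `P` -/
noncomputable def Bm (ω : ℕ) [NeZero ω] (P : Set ℤ) : Finset (ZMod ω) :=
  @Finset.filter (ZMod ω) (fun z => (z.val : ℤ) ∈ P) (Classical.decPred _) univ

lemma mem_Bm {ω : ℕ} [NeZero ω] {P : Set ℤ} (h : Per ω P) (z : ℤ) :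
    (z : ZMod ω) ∈ Bm ω P ↔ z ∈ P := by
  letI := Classical.decPred fun z : ZMod ω => (z.val : ℤ) ∈ P
  have e : (z : ZMod ω) ∈ Bm ω P ↔ (((z : ZMod ω).val : ℤ) ∈ P) := by
    show (z : ZMod ω) ∈ univ.filter (fun z : ZMod ω => (z.val : ℤ) ∈ P) ↔ _
    simp
  rw [e]
  apply h
  rw [← ZMod.intCast_zmod_eq_zero_iff_dvd]
  push_cast
  simp

lemma til_iff {ω : ℕ} [NeZero ω] {P : Set ℤ} (h : Per ω P) (A : Finset ℤ) (k : ℕ) :
    (∀ z : ℤ, ∃! a, a ∈ A ∧ z - k * a ∈ P) ↔
    ∀ z : ZMod ω, (A.filter fun a : ℤ => z - k • (a : ZMod ω) ∈ Bm ω P).card = 1 := by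
  have key : ∀ (z : ℤ) (a : ℤ), ((z : ZMod ω) - k • (a : ZMod ω) ∈ Bm ω P) ↔ z - k * a ∈ P := by
    intro z a
    rw [← mem_Bm h]
    push_cast
    rw [nsmul_eq_mul]
  constructor
  · intro H z
    have hz : z = ((z.val : ℤ) : ZMod ω) := by simp
    rw [hz, card_eq_one, singleton_iff_unique_mem]
    simp only [mem_filter, key]
    exact H _
  · intro H z
    have := H (z : ZMod ω)
    rw [card_eq_one, singleton_iff_unique_mem] at this
    simpa only [mem_filter, key] using this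

lemma til_iff1 {ω : ℕ} [NeZero ω] {P : Set ℤ} (h : Per ω P) (A : Finset ℤ) :
    Til A P ↔ ∀ z : ZMod ω, (A.filter fun a : ℤ => z - (a : ZMod ω) ∈ Bm ω P).card = 1 := by
  have := til_iff h A 1
  simpa [Til] using this

lemma til_card {ω : ℕ} [NeZero ω] {P : Set ℤ} (h : Per ω P) {A : Finset ℤ} (hA : Til A P) :
    A.card * (Bm ω P).card = ω := by
  have h1 := (til_iff1 h A).1 hA
  have h2 : ∑ z : ZMod ω, (A.filter fun a : ℤ => z - (a : ZMod ω) ∈ Bm ω P).card =
      A.card * (Bm ω P).card := by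
    simp_rw [card_filter]
    rw [sum_comm]
    have : ∀ a ∈ A, ∑ z : ZMod ω, (if z - (a : ZMod ω) ∈ Bm ω P then 1 else 0) =
        (Bm ω P).card := by
      intro a _
      rw [← Equiv.sum_comp (Equiv.addRight (a : ZMod ω))]
      simp
    rw [sum_congr rfl this, sum_const, smul_eq_mul]
  rw [← h2]
  simp_rw [h1]
  simp [ZMod.card]

lemma til_prime {ω : ℕ} [NeZero ω] {P : Set ℤ} (h : Per ω P) {A : Finset ℤ} (hA : Til A P)
    {r : ℕ} (hr : r.Prime) (hrA : ¬ r ∣ A.card) : ∀ z : ℤ, ∃! a, a ∈ A ∧ z - r * a ∈ P := by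
  haveI : Fact r.Prime := ⟨hr⟩
  rw [til_iff h A r]
  exact tij A (Bm ω P) (fun a : ℤ => (a : ZMod ω)) hrA ((til_iff1 h A).1 hA)

lemma til_image {P : Set ℤ} {A : Finset ℤ} {k : ℕ} (hk : 0 < k)
    (h : ∀ z : ℤ, ∃! a, a ∈ A ∧ z - k * a ∈ P) : Til (A.image fun a => (k : ℤ) * a) P := by
  intro z
  obtain ⟨a, ⟨ha1, ha2⟩, hu⟩ := h z
  refine ⟨k * a, ⟨mem_image_of_mem _ ha1, ha2⟩, ?_⟩
  rintro y ⟨hy1, hy2⟩
  obtain ⟨a', ha', rfl⟩ := mem_image.1 hy1
  show (k : ℤ) * a' = k * a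
  rw [hu a' ⟨ha', hy2⟩]

lemma card_image_mul {A : Finset ℤ} {k : ℕ} (hk : 0 < k) :
    (A.image fun a => (k : ℤ) * a).card = A.card :=
  card_image_of_injective _ fun a b h => by
    have : (k : ℤ) ≠ 0 := by exact_mod_cast hk.ne'
    exact mul_left_cancel₀ this h

lemma til_mult {ω : ℕ} [NeZero ω] {P : Set ℤ} (h : Per ω P) :
    ∀ k : ℕ, 0 < k → ∀ A : Finset ℤ, Til A P → Nat.Coprime k A.card →
      Til (A.image fun a => (k : ℤ) * a) P := by
  intro k
  induction k using Nat.strong_induction_on with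
  | _ k ih =>
    intro hk A hA hc
    by_cases h1 : k = 1
    · subst h1
      simpa using hA
    · have hr : k.minFac.Prime := Nat.minFac_prime h1
      obtain ⟨m, hm⟩ := Nat.minFac_dvd k
      set r := k.minFac with hrd
      have hm0 : 0 < m := by
        rcases Nat.eq_zero_or_pos m with h0 | h0
        · rw [h0] at hm; omega
        · exact h0
      have hlt : m < k := by
        rw [hm]; have := hr.two_le; nlinarith
      have hrA : ¬ r ∣ A.card := by
        intro hd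
        have : r ∣ Nat.gcd k A.card := Nat.dvd_gcd (by rw [hm]; exact dvd_mul_right _ _) hd
        rw [hc] at this
        exact hr.one_lt.ne' (Nat.dvd_one.1 this)
      have h2 := til_image hr.pos (til_prime h hA hr hrA)
      have hc2 : Nat.Coprime m (A.image fun a => (r : ℤ) * a).card := by
        rw [card_image_mul hr.pos]
        exact Nat.Coprime.coprime_dvd_left (by rw [hm]; exact dvd_mul_left _ _) hc
      have h3 := ih m hlt hm0 _ h2 hc2
      rw [image_image] at h3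
      have e : ((fun a : ℤ => (m : ℤ) * a) ∘ fun a => (r : ℤ) * a) = fun a => (k : ℤ) * a := by
        funext a
        simp only [Function.comp]
        rw [hm]; push_cast; ring
      rwa [e] at h3

/-- two moduli -/
lemma two_mod {S : Set ℤ} {p q : ℤ} (hp : ¬ ∃ c, ∀ s ∈ S, p ∣ s - c)
    (hq : ¬ ∃ c, ∀ s ∈ S, q ∣ s - c) : ∃ s ∈ S, ∃ t ∈ S, ¬ p ∣ s - t ∧ ¬ q ∣ s - t := by
  push Not at hp hq
  obtain ⟨x, hx, -⟩ := hp 0
  obtain ⟨y, hy, hxy⟩ := hp x
  obtain ⟨u, hu, hux⟩ := hq x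
  by_cases h1 : q ∣ y - x
  · have h2 : ¬ q ∣ u - y := by
      intro h; apply hux
      have : u - x = (u - y) + (y - x) := by ring
      rw [this]; exact dvd_add h h1
    by_cases h3 : p ∣ u - x
    · refine ⟨u, hu, y, hy, ?_, h2⟩
      intro h; apply hxy
      have : y - x = (u - x) - (u - y) := by ring
      rw [this]; exact dvd_sub h3 h
    · exact ⟨u, hu, x, hx, h3, hux⟩
  · exact ⟨y, hy, x, hx, hxy, h1⟩

lemma emod_split (a : ℤ) {r c : ℤ} (hr : 0 < r) (hc : 0 < c) :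
    a % (r * c) = a % r + r * ((a / r) % c) := by
  have h1 := Int.emod_add_mul_ediv a r
  have h2 := Int.emod_add_mul_ediv (a / r) c
  have b1 := Int.emod_nonneg a hr.ne'
  have b2 := Int.emod_lt_of_pos a hr
  have b3 := Int.emod_nonneg (a / r) hc.ne'
  have b4 := Int.emod_lt_of_pos (a / r) hc
  have e : a = (a % r + r * ((a / r) % c)) + (r * c) * (a / r / c) := by
    calc a = a % r + r * (a / r) := h1.symm
      _ = a % r + r * (a / r % c + c * (a / r / c)) := by rw [h2]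
      _ = _ := by ring
  conv_lhs => rw [e]
  rw [Int.add_mul_emod_self_left]
  refine Int.emod_eq_of_lt (by positivity) ?_
  nlinarith

/-- sets in one class modulo a divisor of `n` -/
lemma coset_count {A : Finset ℤ} {n r : ℕ} (hr : r.Prime) (hrn : r ∣ n) (hn : 0 < n) {c : ℤ}
    (h : ∀ a ∈ A, (r : ℤ) ∣ a - c) : 2 * (A.image fun a : ℤ => a % n).card ≤ n := by
  obtain ⟨m, rfl⟩ := hrn
  have hm : 0 < m := by
    rcases Nat.eq_zero_or_pos m with h0 | h0
    · rw [h0] at hn; simp at hn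
    · exact h0
  have hr0 : (0 : ℤ) < r := by exact_mod_cast hr.pos
  have hm0 : (0 : ℤ) < m := by exact_mod_cast hm
  have h1 : (A.image fun a : ℤ => a % ((r * m : ℕ) : ℤ)).card ≤ m := by
    have e : A.image (fun a : ℤ => a % ((r * m : ℕ) : ℤ)) ⊆
        (Finset.Ico (0 : ℤ) m).image fun y => c % r + r * y := by
      intro x hx
      obtain ⟨a, ha, rfl⟩ := mem_image.1 hx
      refine mem_image.2 ⟨(a / r) % m, ?_, ?_⟩
      · rw [mem_Ico]
        exact ⟨Int.emod_nonneg _ hm0.ne', Int.emod_lt_of_pos _ hm0⟩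
      · have h2 : a % r = c % r := (Int.modEq_iff_dvd.2 (h a ha)).symm
        push_cast
        rw [emod_split a hr0 hm0, h2]
    refine (card_le_card e).trans (card_image_le.trans ?_)
    simp
  calc 2 * _ ≤ 2 * m := Nat.mul_le_mul_left 2 h1
    _ ≤ r * m := Nat.mul_le_mul_right m hr.two_le

/-- the part of `A` in a class -/
def Aj (r : ℕ) (A : Finset ℤ) (j : ℤ) : Finset ℤ :=
  (A.filter fun a => a % r = j).image fun a => a / r

lemma til_Aj {r : ℕ} (hr : 0 < r) {A : Finset ℤ} {P : Set ℤ} (hA : Til A P) {c : ℤ}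
    (hc : ∀ b ∈ P, (r : ℤ) ∣ b - c) {j : ℤ} (hj0 : 0 ≤ j) (hj : j < r) :
    Til (Aj r A j) {y | c + r * y ∈ P} := by
  have hr0 : (0 : ℤ) < r := by exact_mod_cast hr
  intro z
  obtain ⟨a, ⟨haA, haP⟩, hu⟩ := hA (c + j + r * z)
  obtain ⟨t, ht⟩ := hc _ haP
  have ha : a = j + r * (z - t) := by linear_combination -ht
  have ha1 : a % r = j := by
    rw [ha, Int.add_mul_emod_self_left, Int.emod_eq_of_lt hj0 hj]
  have ha2 : a / r = z - t := by
    rw [ha, Int.add_mul_ediv_left _ _ hr0.ne', Int.ediv_eq_zero_of_lt hj0 hj, zero_add]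
  refine ⟨z - t, ⟨mem_image.2 ⟨a, mem_filter.2 ⟨haA, ha1⟩, ha2⟩, ?_⟩, ?_⟩
  · show c + r * (z - (z - t)) ∈ P
    have : c + r * (z - (z - t)) = c + j + r * z - a := by rw [ha]; ring
    rw [this]; exact haP
  · rintro y ⟨hy1, hy2⟩
    obtain ⟨a', ha', rfl⟩ := mem_image.1 hy1
    rw [mem_filter] at ha'
    have h1 := Int.emod_add_mul_ediv a' r
    have h2 : a' = a := by
      apply hu
      refine ⟨ha'.1, ?_⟩
      have : c + j + r * z - a' = c + r * (z - a' / r) := by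
        rw [ha'.2] at h1; linear_combination h1
      rw [this]; exact hy2
    show a' / r = z - t
    rw [h2, ha2]

lemma card_Aj {r : ℕ} (hr : 0 < r) (A : Finset ℤ) :
    ∑ j ∈ Finset.range r, (Aj r A (j : ℤ)).card = A.card := by
  have hr0 : (0 : ℤ) < r := by exact_mod_cast hr
  have h1 : ∀ j : ℤ, (Aj r A j).card = (A.filter fun a => a % r = j).card := by
    intro j
    refine card_image_of_injOn ?_
    intro a ha b hb hab
    rw [mem_coe, mem_filter] at ha hb
    have e1 := Int.emod_add_mul_ediv a r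
    have e2 := Int.emod_add_mul_ediv b r
    have hab' : a / r = b / r := hab
    rw [ha.2] at e1; rw [hb.2] at e2
    rw [← e1, ← e2, hab']
  simp_rw [h1]
  rw [card_eq_sum_card_fiberwise (f := fun a : ℤ => (a % r).toNat) (t := Finset.range r)]
  · refine sum_congr rfl fun j _ => ?_
    congr 1
    refine filter_congr fun a _ => ?_
    have := Int.emod_nonneg a hr0.ne'
    omega
  · intro a _
    have := Int.emod_nonneg a hr0.ne'
    have := Int.emod_lt_of_pos a hr0
    simp only [coe_range, Set.mem_Iio]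
    omega

end Pool.Agent.V11159.TJ
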