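import Mathlib

open Finset

namespace Pool.Agent.V11159.TJ

section alg
variable {r : ℕ} {M : Type} [AddCommGroup M] [DecidableEq M]

/-- evaluation of a coefficient -/
noncomputable def ev (r : ℕ) (z : M) : AddMonoidAlgebra (ZMod r) M →+ ZMod r where
  toFun x := x.coeff z
  map_zero' := by simp
  map_add' x y := by simp

lemma ev_single (z m : M) (c : ZMod r) :
    ev r z (AddMonoidAlgebra.single m c) = if m = z then c else 0 := by
  show (AddMonoidAlgebra.single m c).coeff z = _
  simp [Finsupp.single_apply]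

lemma ev_ext {x y : AddMonoidAlgebra (ZMod r) M} (h : ∀ z, ev r z x = ev r z y) : x = y := by
  apply AddMonoidAlgebra.coeff_injective
  ext z
  exact h z

lemma ev_mul (A : Finset ℤ) (B : Finset M) (f : ℤ → M) (z : M) :
    ev r z ((∑ a ∈ A, AddMonoidAlgebra.single (f a) (1 : ZMod r)) *
      (∑ b ∈ B, AddMonoidAlgebra.single b (1 : ZMod r))) =
      ((A.filter fun a => z - f a ∈ B).card : ZMod r) := by
  rw [sum_mul_sum, map_sum, card_filter, Nat.cast_sum]
  refine sum_congr rfl fun a _ => ?_
  rw [map_sum]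
  simp only [AddMonoidAlgebra.single_mul_single, ev_single, mul_one]
  by_cases h : z - f a ∈ B
  · rw [sum_eq_single (z - f a)]
    · simp [h]
    · intro b _ hb
      rw [if_neg]
      intro e
      exact hb (by rw [← e]; abel)
    · intro h'; exact absurd h h'
  · rw [sum_eq_zero]
    · simp [h]
    · intro b hb
      rw [if_neg]
      intro e
      exact h (by rw [← e]; simpa using hb)

end alg

section tij
variable {r : ℕ} [Fact r.Prime] {M : Type} [AddCommGroup M] [DecidableEq M] [Fintype M]

instance charP_alg : CharP (AddMonoidAlgebra (ZMod r) M) r :=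
  charP_of_injective_algebraMap (R := ZMod r) (A := AddMonoidAlgebra (ZMod r) M)
    (FaithfulSMul.algebraMap_injective _ _) r

lemma key_mod (A : Finset ℤ) (B : Finset M) (f : ℤ → M) (hr : ¬ r ∣ A.card)
    (h : ∀ z, (A.filter fun a => z - f a ∈ B).card = 1) (z : M) :
    ((A.filter fun a => z - r • f a ∈ B).card : ZMod r) = 1 := by
  set α : AddMonoidAlgebra (ZMod r) M := ∑ a ∈ A, AddMonoidAlgebra.single (f a) (1 : ZMod r)
    with hα
  set β : AddMonoidAlgebra (ZMod r) M := ∑ b ∈ B, AddMonoidAlgebra.single b (1 : ZMod r) with hβ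
  set γ : AddMonoidAlgebra (ZMod r) M := ∑ z : M, AddMonoidAlgebra.single z (1 : ZMod r) with hγ
  have hevγ : ∀ z, ev r z γ = 1 := by
    intro z
    rw [hγ, map_sum]
    simp [ev_single]
  have h1 : α * β = γ := by
    refine ev_ext fun z => ?_
    rw [hα, hβ, ev_mul, h, hevγ]; simp
  have h2 : α * γ = (A.card : ZMod r) • γ := by
    rw [hα, sum_mul]
    have : ∀ a ∈ A, AddMonoidAlgebra.single (f a) (1 : ZMod r) * γ = γ := by
      intro a _
      rw [hγ, mul_sum]
      simp only [AddMonoidAlgebra.single_mul_single, mul_one]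
      exact Fintype.sum_equiv (Equiv.addLeft (f a)) _ _ fun x => rfl
    rw [sum_congr rfl this, sum_const, Nat.cast_smul_eq_nsmul]
  have h3 : ∀ m : ℕ, α ^ m * γ = ((A.card : ZMod r) ^ m) • γ := by
    intro m
    induction m with
    | zero => simp
    | succ m ih => rw [pow_succ', mul_assoc, ih, mul_smul_comm, h2, smul_smul, pow_succ]
  have hA : (A.card : ZMod r) ≠ 0 := by
    rw [Ne, ZMod.natCast_eq_zero_iff]; exact hr
  have h4 : α ^ r * β = γ := by
    have : α ^ r * β = α ^ (r - 1) * (α * β) := by
      rw [← mul_assoc, pow_sub_one_mul (Fact.out : r.Prime).ne_zero]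
    rw [this, h1, h3, ZMod.pow_card_sub_one_eq_one hA, one_smul]
  have h5 : α ^ r = ∑ a ∈ A, AddMonoidAlgebra.single (r • f a) (1 : ZMod r) := by
    rw [hα, sum_pow_char]
    refine sum_congr rfl fun a _ => ?_
    rw [AddMonoidAlgebra.single_pow, one_pow]
  rw [h5] at h4
  have h6 := congrArg (ev r z) h4
  rw [hβ, ev_mul A B (fun a => r • f a) z, hevγ] at h6
  exact h6

/-- Tijdeman: multiplication of a factor by a prime not dividing its size -/
lemma tij (A : Finset ℤ) (B : Finset M) (f : ℤ → M) (hr : ¬ r ∣ A.card)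
    (h : ∀ z, (A.filter fun a => z - f a ∈ B).card = 1) (z : M) :
    (A.filter fun a => z - r • f a ∈ B).card = 1 := by
  have hcount : ∀ g : ℤ → M, ∑ z : M, (A.filter fun a => z - g a ∈ B).card = A.card * B.card := by
    intro g
    simp_rw [card_filter]
    rw [sum_comm]
    have : ∀ a ∈ A, ∑ z : M, (if z - g a ∈ B then 1 else 0) = B.card := by
      intro a _
      rw [← Equiv.sum_comp (Equiv.addRight (g a))]
      simp
    rw [sum_congr rfl this, sum_const, smul_eq_mul]
  have h1 : ∀ z : M, 1 ≤ (A.filter fun a => z - r • f a ∈ B).card := by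
    intro z
    have := key_mod A B f hr h z
    by_contra hcon
    have h0 : (A.filter fun a => z - r • f a ∈ B).card = 0 := by omega
    rw [h0] at this
    simp at this
  have h2 := hcount f
  have h3 := hcount (fun a => r • f a)
  rw [← h2] at h3
  by_contra hcon
  have h4 : ∑ z : M, (A.filter fun a => z - f a ∈ B).card <
      ∑ z : M, (A.filter fun a => z - r • f a ∈ B).card := by
    refine sum_lt_sum (fun z _ => by rw [h]; exact h1 z) ⟨z, mem_univ z, ?_⟩
    rw [h]
    have := h1 z
    omega
  exact absurd h3.symm (ne_of_lt h4)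

end tij

end Pool.Agent.V11159.TJ
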